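import Pool.Agent.N869.GK.StmX

/-!
# GK-LOCR: the real points (helper514)
-/

set_option autoImplicit false

namespace Pool.Agent.N514.GK

open Pool.Agent.TH841.SH (LocC)
open Pool.Agent.N869.GK.X

/-- a real point -/
lemma point {a b c : ℤ} {x : ℝ} (h : 0 < (x - a) * (x - b) * (x - c)) {m n : ℤ}
    (hm : 0 ≤ (x - a) * m) (hn : 0 ≤ (x - b) * n) : LocC ℝ a b c m n := by
  refine ⟨x, √((x - a) * (x - b) * (x - c)), (Real.sqrt_pos.2 h).ne', Real.sq_sqrt h.le, ?_, ?_⟩
  · exact ⟨√((x - a) * m), (Real.mul_self_sqrt hm).symm⟩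
  · exact ⟨√((x - b) * n), (Real.mul_self_sqrt hn).symm⟩

/-- a point on the oval -/
lemma oval {a b c : ℝ} (hab : a ≠ b) (hac : a ≠ c) (hbc : b ≠ c) :
    ∃ x : ℝ, 0 < (x - a) * (x - b) * (x - c) ∧ (x < a ∨ x < b) := by
  have key : ∀ u v w : ℝ, u < v → v < w → ∃ x : ℝ, u < x ∧ x < v ∧ x < w := fun u v w h1 h2 =>
    ⟨(u + v) / 2, by linarith, by linarith, by linarith⟩
  have pos : ∀ p q r : ℝ, 0 < p → q < 0 → r < 0 → 0 < p * q * r := fun p q r hp hq hr => by
    have := mul_pos_of_neg_of_neg hq hr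
    rw [mul_assoc]
    positivity
  rcases lt_trichotomy a b with h1 | h1 | h1
  · rcases lt_trichotomy a c with h2 | h2 | h2
    · -- a smallest
      rcases lt_trichotomy b c with h3 | h3 | h3
      · obtain ⟨x, hx1, hx2, hx3⟩ := key a b c h1 h3
        exact ⟨x, pos _ _ _ (by linarith) (by linarith) (by linarith), Or.inr hx2⟩
      · exact absurd h3 hbc
      · obtain ⟨x, hx1, hx2, hx3⟩ := key a c b h2 h3
        exact ⟨x, pos _ _ _ (by linarith) (by linarith) (by linarith), Or.inr hx3⟩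
    · exact absurd h2 hac
    · -- c < a < b
      obtain ⟨x, hx1, hx2, hx3⟩ := key c a b h2 h1
      refine ⟨x, ?_, Or.inl hx2⟩
      have := pos (x - c) (x - a) (x - b) (by linarith) (by linarith) (by linarith)
      linarith [this, mul_comm ((x - a) * (x - b)) (x - c), mul_assoc (x - c) (x - a) (x - b)]
  · exact absurd h1 hab
  · rcases lt_trichotomy b c with h2 | h2 | h2
    · -- b smallest
      rcases lt_trichotomy a c with h3 | h3 | h3
      · obtain ⟨x, hx1, hx2, hx3⟩ := key b a c h1 h3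
        refine ⟨x, ?_, Or.inl hx2⟩
        have := pos (x - b) (x - a) (x - c) (by linarith) (by linarith) (by linarith)
        rwa [mul_comm (x - b) (x - a)] at this
      · exact absurd h3 hac
      · obtain ⟨x, hx1, hx2, hx3⟩ := key b c a h2 h3
        refine ⟨x, ?_, Or.inl hx3⟩
        have := pos (x - b) (x - a) (x - c) (by linarith) (by linarith) (by linarith)
        rwa [mul_comm (x - b) (x - a)] at this
    · exact absurd h2 hbc
    · -- c < b < a
      obtain ⟨x, hx1, hx2, hx3⟩ := key c b a h2 h1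
      refine ⟨x, ?_, Or.inl hx3⟩
      have := pos (x - c) (x - a) (x - b) (by linarith) (by linarith) (by linarith)
      linarith [this, mul_comm ((x - a) * (x - b)) (x - c), mul_assoc (x - c) (x - a) (x - b)]

/-- the sign as an integer -/
lemma sgn {z : ℝ} (hz : z ≠ 0) : ∃ m : ℤ, m ≠ 0 ∧ 0 ≤ z * m ∧ (z < 0 → m = -1) := by
  rcases lt_or_gt_of_ne hz with h | h
  · exact ⟨-1, by norm_num, by push_cast; linarith, fun _ => rfl⟩
  · exact ⟨1, by norm_num, by push_cast; linarith, fun h' => by linarith⟩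

lemma not_sq : ¬ IsSquare (((-1 : ℤ) : ℝ)) := by
  rintro ⟨r, hr⟩
  push_cast at hr
  nlinarith [mul_self_nonneg r]

theorem t_LOCR : Pool.Agent.N869.GK.X.S_LOCR := by
  intro e1 e2 e3 h12 h13 h23
  obtain ⟨x, hx, hneg⟩ := oval (a := (e1 : ℝ)) (b := (e2 : ℝ)) (c := (e3 : ℝ))
    (by exact_mod_cast h12) (by exact_mod_cast h13) (by exact_mod_cast h23)
  have hxa : x - e1 ≠ 0 := by rintro h; rw [h] at hx; simp at hx
  have hxb : x - e2 ≠ 0 := by rintro h; rw [h] at hx; simp at hx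
  obtain ⟨m, hm0, hm, hm1⟩ := sgn hxa
  obtain ⟨n, hn0, hn, hn1⟩ := sgn hxb
  have hns : ¬ (IsSquare ((m : ℤ) : ℝ) ∧ IsSquare ((n : ℤ) : ℝ)) := by
    rintro ⟨h1, h2⟩
    rcases hneg with h | h
    · rw [hm1 (by linarith)] at h1
      exact not_sq h1
    · rw [hn1 (by linarith)] at h2
      exact not_sq h2
  have h1 : LocC ℝ e1 e2 e3 1 1 := by
    have a1 := le_abs_self (e1 : ℝ)
    have a2 := le_abs_self (e2 : ℝ)
    have a3 := le_abs_self (e3 : ℝ)
    have b1 := abs_nonneg (e1 : ℝ)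
    have b2 := abs_nonneg (e2 : ℝ)
    have b3 := abs_nonneg (e3 : ℝ)
    refine point (x := |(e1 : ℝ)| + |(e2 : ℝ)| + |(e3 : ℝ)| + 1) ?_ ?_ ?_
    · have p1 : 0 < |(e1 : ℝ)| + |(e2 : ℝ)| + |(e3 : ℝ)| + 1 - e1 := by linarith
      have p2 : 0 < |(e1 : ℝ)| + |(e2 : ℝ)| + |(e3 : ℝ)| + 1 - e2 := by linarith
      have p3 : 0 < |(e1 : ℝ)| + |(e2 : ℝ)| + |(e3 : ℝ)| + 1 - e3 := by linarith
      positivity
    · push_cast
      linarith
    · push_cast
      linarith
  refine ⟨![(1, 1), (m, n)], ?_, ?_⟩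
  · intro i
    fin_cases i
    · exact ⟨one_ne_zero, one_ne_zero, h1⟩
    · exact ⟨hm0, hn0, point hx hm hn⟩
  · intro i j hij
    fin_cases i <;> fin_cases j
    · exact absurd rfl hij
    · simpa using hns
    · simpa using hns
    · exact absurd rfl hij

end Pool.Agent.N514.GK
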